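import Mathlib
import Pool.Agent.H.MP_43e680_lc.A
import Pool.Agent.H.MP_77d395_lc.A

set_option autoImplicit false

namespace Pool.Agent.H.MP_1dfcde_lc

open Set Filter Function Cardinal Ordinal Finsupp MP_77d395_lc MP_43e680_lc Submodule

/-- the parametrized diamond principle for infinitely often equal functions -/
def Dia : Prop := ∀ Φ : ∀ δ : (ω₁ : Ordinal.{0}).ToType, (Iio δ → Bool) → ℕ → ℕ,
  (∀ δ, Measurable (Φ δ)) → ∃ g : (ω₁ : Ordinal.{0}).ToType → ℕ → ℕ,
    ∀ f : (ω₁ : Ordinal.{0}).ToType → Bool,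
      IsStationary {δ | {n | Φ δ (fun ξ => f ξ) n = g δ n}.Infinite}

theorem dia (h : Dia) {K : Type} [Countable K] (P : I → (I × K → Prop) → ℕ → ℕ → Prop)
    (hP : ∀ δ n m, Measurable fun f => P δ f n m) : ∃ g : I → ℕ → ℕ, ∀ (f : I × K → Prop) a,
      ∃ δ, a < δ ∧ ((∀ n, ∃ m, P δ (fun q => q.1 < δ ∧ f q) n m) →
        ∃ᶠ n in atTop, P δ (fun q => q.1 < δ ∧ f q) n (g δ n)) := by
  classical
  obtain ⟨c⟩ := (le_def (I × K) I).1 (by
    simpa [mkI] using (mul_le_mul' le_rfl (mk_le_aleph0.trans (aleph0_le_aleph 1))).trans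
      (by simp : ℵ₁ * _ ≤ ℵ₁))
  let r : ∀ δ, (Iio δ → Bool) → I × K → Prop := fun δ h q => q.1 < δ ∧ ∃ e, h ⟨c q, e⟩ = true
  have hr : ∀ δ, Measurable (r δ) := fun δ => by unfold r; fun_prop
  have e : ∀ δ h n, ∃ m, P δ (r δ h) n m ∨ ∀ m, ¬ P δ (r δ h) n m := fun δ h n => by
    by_contra! c
    obtain ⟨m, hm⟩ := (c 0).2
    exact (c m).1 hm
  obtain ⟨g, hg⟩ := h (fun δ h n => Nat.find (e δ h n)) fun δ => measurable_pi_lambda _ fun n =>
    measurable_find _ fun m => measurableSet_setOfPred.2 (((hP δ n m).comp (hr δ)).or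
      (.forall fun m => ((hP δ n m).comp (hr δ)).not))
  refine ⟨g, fun f a => ?_⟩
  have b : ∀ s : Set I, s.Countable → ∃ b, ∀ x ∈ s, x < b := fun s h =>
    (unc (h.biUnion fun x _ => cI x)).imp fun b h x hx => not_le.1 fun c => h (mem_biUnion hx c)
  obtain ⟨δ, d1, d2, d3⟩ := hg (fun x => decide (∃ q, c q = x ∧ f q))
    (t := {δ | a < δ ∧ ∀ q : I × K, q.1 < δ → c q < δ}) ⟨fun s s1 ⟨x, s2⟩ _ δ d => ⟨(s1 s2).1.trans_le
      (d.1 s2), fun q h => let ⟨y, y1, y2⟩ := (lt_isLUB_iff d).1 h; ((s1 y1).2 q y2).trans_le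
        (d.1 y1)⟩, fun x => by
    choose N hN using fun y => b _ ((((cI y).prod (countable_univ (α := K))).image c).insert y)
    let u : ℕ → I := fun n => N^[n] (N (max a x))
    obtain ⟨z, hz⟩ := b _ (countable_range u)
    obtain ⟨δ, d⟩ : ∃ δ, IsLUB (range u) δ := ⟨_, wellFounded_lt.min_mem (upperBounds (range u))
      ⟨z, fun y h => (hz y h).le⟩, fun y h => not_lt.1 (wellFounded_lt.not_lt_min _ h)⟩
    have := (hN _ _ (mem_insert _ _)).trans_le (d.1 ⟨0, rfl⟩)
    refine ⟨δ, ⟨(le_max_left _ _).trans_lt this, fun q h => ?_⟩, ((le_max_right _ _).trans_lt this).le⟩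
    obtain ⟨_, ⟨n, rfl⟩, h⟩ := (lt_isLUB_iff d).1 h
    exact (hN (u n) _ (.inr ⟨q, ⟨h.le, trivial⟩, rfl⟩)).trans_le
      (d.1 ⟨n + 1, iterate_succ_apply' _ _ _⟩)⟩
  have : r δ (fun ξ => decide (∃ q, c q = ξ ∧ f q)) = fun q => q.1 < δ ∧ f q :=
    funext fun q => propext (and_congr_right fun h => by simp [d3 q h])
  refine ⟨δ, d2, fun k => (Nat.frequently_atTop_iff_infinite.2 d1).mono fun n h => ?_⟩
  have := this ▸ h ▸ Nat.find_spec (e δ (fun ξ => decide (∃ q, c q = ξ ∧ f q)) n)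
  exact this.resolve_right (not_forall_not.2 (k n))

theorem scale (h : Dia) (ξ : I → ℕ → I) (hξ : ∀ δ, Iic δ ⊆ range (ξ δ)) :
    ∃ p : I → ℕ → ℕ, (∀ δ, StrictMono (p δ)) ∧ ∀ g : ℕ → ℕ, ∃ a, ∀ δ, a < δ →
      ∃ᶠ k in atTop, g (p δ k) ≤ p δ (k + 1) := by
  obtain ⟨a, ha⟩ := wellFounded_lt.has_min (Set.univ : Set I) univ_nonempty
  obtain ⟨G, hG⟩ := dia h (fun _ f n m => f (a, n, m)) (by fun_prop)
  let p : I → ℕ → ℕ := fun δ k => ∑ j ∈ Finset.range (k + 1), (∑ i ∈ Finset.range j, G (ξ δ i) j + 1)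
  have hp : ∀ i, StrictMono (p i) := fun i => strictMono_nat_of_lt_succ fun k => by
    simp only [p, Finset.sum_range_succ _ (k + 1)]; omega
  refine ⟨p, hp, fun g => ?_⟩
  let g' : ℕ → ℕ := fun m => ∑ j ∈ Finset.range (m + 1), g j + m
  have g1 : ∀ m, g m ≤ g' m := fun m => by simp only [g', Finset.sum_range_succ]; omega
  have g2 : Monotone g' := monotone_nat_of_le_succ fun m => by
    simp only [g', Finset.sum_range_succ _ (m + 1)]; omega
  obtain ⟨b, b1, b2⟩ := hG (fun q => g'^[q.2.1] q.2.1 = q.2.2) a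
  refine ⟨b, fun j hj => by_contra fun d => ?_⟩
  obtain ⟨N, hN⟩ := eventually_atTop.1 (not_frequently.1 d)
  obtain ⟨i, rfl⟩ := hξ j hj.le
  have : ∀ k, p j (N + k) ≤ g'^[k] (p j N) := fun k => by
    induction k with
    | zero => rfl
    | succ k ih => exact iterate_succ_apply' g' k _ ▸ ((not_le.1 (hN _ le_self_add)).le.trans
        (g1 _)).trans (g2 ih)
  obtain ⟨k, k1, k2, k3⟩ := ((b2 fun n => ⟨g'^[n] n, b1, rfl⟩).and_eventually
    ((eventually_ge_atTop (p j N)).and (eventually_gt_atTop i))).exists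
  have := ((hp j).monotone le_add_self).trans ((this k).trans (g2.iterate k k2))
  have := Finset.single_le_sum (f := fun i => G (ξ j i) k) (fun _ _ => Nat.zero_le _)
    (Finset.mem_range.2 k3)
  have := k1.2
  simp only [p, Finset.sum_range_succ] at *; omega

variable {F : Type} [Field F]

/-- block sequence -/
def BSeq (x : ℕ → ℕ →₀ F) : Prop :=
  (∀ n, x n ≠ 0) ∧ ∀ m n, m < n → ∀ i ∈ (x m).support, ∀ j ∈ (x n).support, i < j

/-- block subspace -/
def Block (X : Submodule F (ℕ →₀ F)) : Prop := ∃ x, BSeq x ∧ X = span F (range x)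

/-- family of pairwise almost disjoint block subspaces -/
def BAD (𝒜 : Set (Submodule F (ℕ →₀ F))) : Prop :=
  (∀ X ∈ 𝒜, Block X) ∧ 𝒜.Pairwise fun X Y => FiniteDimensional F (X ⊓ Y :)

theorem li {x : ℕ → ℕ →₀ F} (h : BSeq x) : LinearIndependent F x :=
  linearIndependent_iff'.2 fun s g e i hi => by
    obtain ⟨j, hj⟩ := support_nonempty_iff.2 (h.1 i)
    have := DFunLike.congr_fun e j
    rw [Finsupp.finsetSum_apply, Finset.sum_eq_single_of_mem i hi fun k _ c => by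
      have : j ∉ (x k).support := fun d => (lt_or_gt_of_ne c).elim (fun c =>
        (h.2 _ _ c _ d _ hj).false) fun c => (h.2 _ _ c _ hj _ d).false
      simp [notMem_support_iff.1 this]] at this
    simpa [mem_support_iff.1 hj] using this

theorem fd {E : Type} [AddCommGroup E] [Module F E] {X : Submodule F E}
    (h : Module.rank F X < ℵ₀) : FiniteDimensional F X := Module.rank_lt_aleph0_iff.1 h

theorem nf' {E : Type} [AddCommGroup E] [Module F E] {x : ℕ → E} (h : LinearIndependent F x)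
    {X : Submodule F E} (hX : ∀ n, x n ∈ X) : ¬ FiniteDimensional F X := fun _ =>
  have : LinearIndependent F fun n => (⟨x n, hX n⟩ : X) := .of_comp X.subtype h
  not_finite_iff_infinite.2 inferInstance this.finite

theorem nf {x : ℕ → ℕ →₀ F} (h : BSeq x) {X : Submodule F (ℕ →₀ F)} (hX : ∀ n, x n ∈ X) :
    ¬ FiniteDimensional F X := nf' (li h) hX

theorem rL (m : ℕ) : Module.rank F (supported F F (Iio m)) = m := by
  simp [(supportedEquivFinsupp (R := F) (M := F) (Iio m)).rank_eq]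

theorem sub {X : Submodule F (ℕ →₀ F)} (h : ¬ FiniteDimensional F X) :
    ∃ x, BSeq x ∧ ∀ n, x n ∈ X := by
  have : ∀ m, ∃ v, v ∈ supported F F (Ici m) ⊓ X ∧ v ≠ 0 := fun m => by
    by_contra! c
    have := rk (supported F F (Ici m)) (supported F F (Iio m)) X
    rw [← supported_union, Ici_union_Iio, supported_univ, top_inf_eq, rL,
      (Submodule.eq_bot_iff _).2 c] at this
    exact h (fd (this.trans_lt (by simp)))
  choose v v1 v2 using this
  let m : ℕ → ℕ := Nat.rec 0 fun _ m => m + ((v m).support.sup id + 1)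
  have : Monotone m := monotone_nat_of_le_succ fun n => le_self_add
  refine ⟨fun n => v (m n), ⟨fun n => v2 _, fun a b c i hi j hj => ?_⟩, fun n => (v1 _).2⟩
  exact ((Nat.lt_succ_of_le (Finset.le_sup (f := id) hi)).trans_le le_add_self).trans_le
    ((this (Nat.succ_le_of_lt c)).trans ((v1 _).1 hj))

def Val (p : ℕ → ℕ) (B : ℕ → (ℕ →₀ F) → Prop) (n : ℕ) (t : ℕ →₀ ℕ →₀ F) : Prop :=
  n < t.support.card ∧ ∀ k ∈ t.support, n ≤ k ∧ t k ∈ supported F F (Ico (p k) (p (k + 1))) ∧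
    ∀ i ≤ n, ∀ w ∈ supported F F (Iio (p k)), ¬ B i (t k - w)

theorem con (p : ℕ → ℕ) (B : ℕ → (ℕ →₀ F) → Prop) (t : ℕ → ℕ →₀ ℕ →₀ F) :
    ∃ x : ℕ → ℕ →₀ F, (∀ k, x k ∈ supported F F (Ico (p k) (p (k + 1)))) ∧
      (∀ i, ∀ᶠ k in atTop, x k ≠ 0 → ∀ w ∈ supported F F (Iio (p k)), ¬ B i (x k - w)) ∧
      ∀ Y : Set (ℕ →₀ F), (∃ᶠ n in atTop, Val p B n (t n) ∧ ∀ k, t n k ∈ Y) →
        ∃ᶠ k in atTop, x k ≠ 0 ∧ x k ∈ Y := by
  obtain ⟨s, s1, s2⟩ := (Finset.all_card_le_biUnion_card_iff_exists_injective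
    fun n : {n // Val p B n (t n)} => (t n).support).1 fun s => by
      rcases s.eq_empty_or_nonempty with rfl | n
      · simp
      obtain ⟨x, x1, x2⟩ := s.exists_max_image (·.1) n
      exact ((Finset.card_le_card_of_injOn (t := Finset.range (x.1 + 1)) Subtype.val
        (fun y hy => by simpa [Nat.lt_succ_iff] using x2 y hy) Subtype.val_injective.injOn).trans
        (by simpa using Nat.succ_le_of_lt x.2.1)).trans (Finset.card_le_card
          (Finset.subset_biUnion_of_mem (fun n : {n // Val p B n (t n)} => (t n).support) x1))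
  refine ⟨extend s (fun n => t n (s n)) 0, fun k => ?_, fun i => ?_, fun Y h =>
    frequently_atTop.2 fun N => ?_⟩
  · by_cases h : ∃ n, s n = k
    · obtain ⟨n, rfl⟩ := h
      exact s1.extend_apply .. ▸ (n.2.2 _ (s2 n)).2.1
    · simp [extend_apply' _ _ _ h]
  · refine mem_of_superset (Nat.cofinite_eq_atTop ▸ (((finite_Iio i).preimage
      Subtype.val_injective.injOn).image s).compl_mem_cofinite) fun k h c => ?_
    by_cases d : ∃ n, s n = k
    · obtain ⟨n, rfl⟩ := d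
      exact s1.extend_apply .. ▸ (n.2.2 _ (s2 n)).2.2 i (not_lt.1 fun c => h ⟨n, c, rfl⟩)
    · simp [extend_apply' _ _ _ d] at c
  · obtain ⟨n, ⟨n1, n2⟩, n3⟩ := (h.and_eventually (eventually_ge_atTop N)).exists
    exact ⟨s ⟨n, n1⟩, n3.trans (n1.2 _ (s2 ⟨n, n1⟩)).1, s1.extend_apply .. ▸
      ⟨mem_support_iff.1 (s2 ⟨n, n1⟩), n2 _⟩⟩

theorem sp {p : ℕ → ℕ} (hp : StrictMono p) {x : ℕ → ℕ →₀ F}
    (hx : ∀ k, x k ∈ supported F F (Ico (p k) (p (k + 1)))) {A : Submodule F (ℕ →₀ F)}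
    (h : ∀ᶠ k in atTop, x k ≠ 0 → ∀ w ∈ supported F F (Iio (p k)), x k - w ∉ A) :
    FiniteDimensional F (span F (range x) ⊓ A :) := by
  obtain ⟨N, hN⟩ := eventually_atTop.1 h
  let W : ℕ → Submodule F (ℕ →₀ F) := Nat.rec ⊥ fun n W => W ⊔ F ∙ x n
  have w1 : ∀ n, W n ≤ supported F F (Iio (p n)) := fun n => by
    induction n with
    | zero => exact bot_le
    | succ n ih =>
      exact sup_le (ih.trans (supported_mono (Iio_subset_Iio (hp.monotone (by simp)))))
        ((span_singleton_le_iff_mem _ _).2 (supported_mono Ico_subset_Iio_self (hx n)))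
  have w2 : Monotone W := monotone_nat_of_le_succ fun n => le_sup_left
  have k : ∀ n, N ≤ n → W n ⊓ A ≤ W N := fun n h => by
    induction n, h using Nat.le_induction with
    | base => exact inf_le_left
    | succ n h ih =>
      rintro _ ⟨c, y⟩
      obtain ⟨w, hw, _, c', rfl⟩ := mem_sup.1 c
      obtain ⟨t, rfl⟩ := mem_span_singleton.1 c'
      by_cases e : t • x n = 0
      · exact ih ⟨by simpa [e] using hw, y⟩
      · have e := smul_ne_zero_iff.1 e
        exact (hN n h e.2 (-t⁻¹ • w) (smul_mem _ _ (w1 n hw)) (by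
          simpa [add_comm, e.1] using smul_mem A t⁻¹ y)).elim
  have : FiniteDimensional F (supported F F (Iio (p N))) :=
    fd ((rL (F := F) (p N)).trans_lt natCast_lt_aleph0)
  refine finiteDimensional_of_le (S₂ := supported F F (Iio (p N))) fun v ⟨c, y⟩ => ?_
  obtain ⟨n, c⟩ := (mem_iSup_of_directed _ w2.directed_le).1 ((span_le.2 (range_subset_iff.2
    fun n => mem_iSup_of_mem (n + 1) (mem_sup_right (mem_span_singleton_self _))) :
      span F (range x) ≤ ⨆ n, W n) c)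
  exact w1 N (k _ (le_max_left N n) ⟨w2 (le_max_right N n) c, y⟩)

theorem bs {p : ℕ → ℕ} (hp : StrictMono p) {x : ℕ → ℕ →₀ F}
    (hx : ∀ k, x k ∈ supported F F (Ico (p k) (p (k + 1)))) {q : ℕ → Prop}
    (h : {k | q k}.Infinite) (hq : ∀ k, q k → x k ≠ 0) : BSeq fun n => x (Nat.nth q n) :=
  ⟨fun n => hq _ (Nat.nth_mem_of_infinite h n), fun _ _ c _ hi _ hj => (hx _ hi).2.trans_le
    ((hp.monotone (Nat.succ_le_of_lt (Nat.nth_strictMono h c))).trans (hx _ hj).1)⟩

theorem exv {y : ℕ → ℕ →₀ F} (hy : BSeq y) : ∃ g : ℕ → ℕ, ∀ p : ℕ → ℕ, StrictMono p →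
    (∃ᶠ k in atTop, g (p k) ≤ p (k + 1)) → ∀ B : ℕ → (ℕ →₀ F) → Prop, (∀ i, ∃ A : Submodule F _,
      (∀ v, B i v → v ∈ A) ∧ FiniteDimensional F (A ⊓ span F (range y) :)) →
      ∀ n, ∃ t, Val p B n t ∧ ∀ k, t k ∈ span F (range y) := by
  classical
  refine ⟨fun m => ∑ j ∈ Finset.range (m + ((m + 1) * (m + m) + 1)), ((y j).support.sup id + 1),
    fun p hp h B hB n => ?_⟩
  choose A a1 a2 using hB
  have y1 : ∀ j, ∀ i ∈ (y j).support, j ≤ i := fun j => by
    induction j with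
    | zero => simp
    | succ j ih =>
      obtain ⟨i, hi⟩ := support_nonempty_iff.2 (hy.1 j)
      exact fun k hk => (ih i hi).trans_lt (hy.2 _ _ j.lt_succ_self i hi k hk)
  have : ∀ m i, ∃ s : Finset ℕ, s.card ≤ m + Module.finrank F (A i ⊓ span F (range y) :) ∧
      ∀ j, y j ∈ A i ⊔ supported F F (Iio m) → j ∈ s := fun m i => by
    have := (LinearIndependent.of_comp (Submodule.subtype _) (v := fun k :
      {k | y k ∈ A i ⊔ supported F F (Iio m)} => (⟨y k, k.2, subset_span ⟨_, rfl⟩⟩ :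
        ((A i ⊔ supported F F (Iio m)) ⊓ span F (range y) :)))
      ((li hy).comp _ Subtype.val_injective)).cardinal_le_rank.trans ((rk _ _ _).trans (add_le_add
        (rL m).le (Module.finrank_eq_rank _ _).ge))
    norm_cast at this
    have f := lt_aleph0_iff_set_finite.1 (this.trans_lt natCast_lt_aleph0)
    refine ⟨f.toFinset, ?_, fun k => f.mem_toFinset.2⟩
    rw [← f.coe_toFinset, Finset.coe_sort_coe, mk_coe_finset] at this
    exact_mod_cast this
  choose s s1 s2 using this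
  obtain ⟨K, k1, k2⟩ := (Nat.frequently_atTop_iff_infinite.1 (h.and_eventually
    ((eventually_ge_atTop n).and (eventually_ge_atTop (∑ i ∈ Finset.range (n + 1),
      Module.finrank F (A i ⊓ span F (range y) :)))))).exists_subset_card_eq (n + 1)
  have : ∀ k ∈ K, ∃ j, y j ∈ supported F F (Ico (p k) (p (k + 1))) ∧
      ∀ i ≤ n, ∀ w ∈ supported F F (Iio (p k)), ¬ B i (y j - w) := fun k hk => by
    obtain ⟨h1, h2, h3⟩ := k1 hk
    have h4 : k ≤ p k := hp.le_apply
    obtain ⟨j, j1, j2⟩ := Finset.exists_mem_notMem_of_card_lt_card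
      (s := (Finset.range (n + 1)).biUnion (s (p k)))
      (t := Finset.Ico (p k) (p k + ((p k + 1) * (p k + p k) + 1)))
      ((Finset.card_biUnion_le_card_mul _ _ (p k + p k) fun i hi => (s1 _ i).trans
        (add_le_add_right (((Finset.single_le_sum (f := fun i => Module.finrank F
          (A i ⊓ span F (range y) :)) (fun _ _ => Nat.zero_le _) hi).trans h3).trans h4) _)).trans_lt
        (by simpa [Nat.lt_succ_iff] using Nat.mul_le_mul_right _ (by omega)))
    rw [Finset.mem_Ico] at j1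
    refine ⟨j, fun i hi => ⟨j1.1.trans (y1 j i hi), ((Nat.lt_succ_of_le (Finset.le_sup (f := id)
      hi)).trans_le (Finset.single_le_sum (f := fun j => (y j).support.sup id + 1)
        (fun _ _ => Nat.zero_le _) (Finset.mem_range.2 j1.2))).trans_le h1⟩, fun i hi w hw c =>
      j2 (Finset.mem_biUnion.2 ⟨i, Finset.mem_range.2 (by omega), s2 _ _ _ (by
        simpa using add_mem (mem_sup_left (a1 i _ c)) (mem_sup_right hw))⟩)⟩
  choose! j j1 j2 using this
  refine ⟨⟨K, fun k => if k ∈ K then y (j k) else 0, fun k => by simp [hy.1]⟩, ⟨by simp [k2],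
    fun k hk => ?_⟩, fun k => ?_⟩
  · simpa [show k ∈ K from hk] using ⟨(k1 hk).2.1, j1 k hk, j2 k hk⟩
  · simp only [Finsupp.coe_mk]; split_ifs; exacts [subset_span ⟨_, rfl⟩, zero_mem _]

theorem fam [Countable F] (h : Dia) : ∃ 𝒜 : Set (Submodule F (ℕ →₀ F)), BAD 𝒜 ∧ #𝒜 ≤ ℵ₁ ∧
    𝒜.Nontrivial ∧ ∀ Y, Block Y → ∃ X ∈ 𝒜, ¬ FiniteDimensional F (X ⊓ Y :) := by
  classical
  choose ξ hξ using fun δ : I => countable_iff_exists_subset_range.1 (cI δ)
  obtain ⟨p, p1, p2⟩ := scale h ξ hξ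
  obtain ⟨a, -, ha⟩ := wellFounded_lt.has_min (Set.univ : Set I) univ_nonempty
  obtain ⟨D, hD⟩ := exists_surjective_nat (ℕ →₀ ℕ →₀ F)
  obtain ⟨g, hg⟩ := dia h (K := Bool × (ℕ →₀ F)) (fun δ f n m => Val (p δ)
    (fun i v => f (ξ δ i, false, v)) n (D m) ∧ ∀ k, f (a, true, D m k)) fun δ n m => by
      unfold Val; fun_prop
  choose x x1 x2 x3 using fun δ B => con (F := F) (p δ) B fun n => D (g δ n)
  let e : ℕ → ℕ → ℕ →₀ F := fun i n => single (2 * n + i) 1
  have he : ∀ i, BSeq (e i) := fun i => ⟨by simp [e], fun m n c => by simpa [e, support_single]⟩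
  let A : I → Submodule F (ℕ →₀ F) := wellFounded_lt.fix fun δ ih => if δ = a then
    span F (range (e 0)) else span F (range (x δ fun i v => ∃ h : ξ δ i < δ, v ∈ ih _ h))
  have A1 : ∀ δ, A δ = if δ = a then span F (range (e 0)) else
      span F (range (x δ fun i v => ξ δ i < δ ∧ v ∈ A (ξ δ i))) := fun δ => by
    rw [show A δ = _ from wellFounded_lt.fix_eq _ δ]; simp only [exists_prop]; rfl
  have A2 : ∀ γ δ, γ < δ → FiniteDimensional F (A δ ⊓ A γ :) := fun γ δ c => by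
    obtain ⟨i, rfl⟩ := hξ δ c.le
    rw [A1 δ, if_neg fun d => ha _ trivial (d ▸ c)]
    exact sp (p1 δ) (x1 δ _) ((x2 δ _ i).mono fun k h d w hw e => h d w hw ⟨c, e⟩)
  have key : ∀ Y, Block Y → ∃ X ∈ range A ∩ {X | Block X}, ¬ FiniteDimensional F (X ⊓ Y :) := by
    rintro _ ⟨y, hy, rfl⟩
    by_contra! c
    have : ∀ δ, {k | x δ (fun i v => ξ δ i < δ ∧ v ∈ A (ξ δ i)) k ≠ 0}.Infinite ∨ δ = a →
        Block (A δ) := fun δ h => by
      rw [A1 δ]
      split_ifs with d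
      · exact ⟨_, he 0, rfl⟩
      refine ⟨_, bs (p1 δ) (x1 δ _) (h.resolve_right d) fun _ => id, le_antisymm (span_le.2 ?_)
        (span_mono (range_comp_subset_range _ _))⟩
      rintro _ ⟨k, rfl⟩
      by_cases e : x δ (fun i v => ξ δ i < δ ∧ v ∈ A (ξ δ i)) k = 0
      · simp [e]
      · obtain ⟨n, rfl⟩ := Nat.subset_range_nth (p := fun k => x δ _ k ≠ 0) e
        exact subset_span ⟨n, rfl⟩
    have c' : ∀ δ, FiniteDimensional F (A δ ⊓ span F (range y) :) := fun δ => by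
      by_cases d : Block (A δ)
      · exact c _ ⟨⟨δ, rfl⟩, d⟩
      have d := not_or.1 (mt (this δ) d)
      have : FiniteDimensional F (A δ) := by
        rw [A1 δ, if_neg d.2]
        exact .span_of_finite F ((((not_infinite.1 d.1).image _).insert 0).subset
          (range_subset_iff.2 fun k => or_iff_not_imp_left.2 fun h => ⟨k, h, rfl⟩))
      infer_instance
    obtain ⟨G, hG⟩ := exv hy
    obtain ⟨b, hb⟩ := p2 G
    obtain ⟨δ, d1, d2⟩ := hg (fun q => if q.2.1 then q.2.2 ∈ span F (range y) else q.2.2 ∈ A q.1)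
      (max a b)
    rw [max_lt_iff] at d1
    simp only [if_true, Bool.false_eq_true, if_false, d1.1, true_and] at d2
    have := Nat.frequently_atTop_iff_infinite.1 (x3 δ _ _ (d2 fun n => by
      obtain ⟨t, ht⟩ := hG _ (p1 δ) (hb δ d1.2) (fun i v => ξ δ i < δ ∧ v ∈ A (ξ δ i))
        (fun i => ⟨_, fun _ h => h.2, c' _⟩) n
      obtain ⟨m, rfl⟩ := hD t
      exact ⟨m, ht⟩))
    refine nf (bs (p1 δ) (x1 δ _) this fun _ h => h.1) (fun n => mem_inf.2 ⟨?_,
      (Nat.nth_mem_of_infinite this n).2⟩) (c' δ)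
    rw [A1 δ, if_neg d1.1.ne']
    exact subset_span ⟨_, rfl⟩
  refine ⟨range A ∩ {X | Block X}, ⟨fun _ h => h.2, ?_⟩, (mk_le_mk_of_subset inter_subset_left).trans
    (mk_range_le.trans mkI.le), ?_, key⟩
  · rintro _ ⟨⟨γ, rfl⟩, -⟩ _ ⟨⟨δ, rfl⟩, -⟩ c
    rcases lt_or_gt_of_ne fun d : γ = δ => c (d ▸ rfl) with d | d
    exacts [inf_comm (A δ) (A γ) ▸ A2 _ _ d, A2 _ _ d]
  · obtain ⟨X, h1, h2⟩ := key _ ⟨_, he 1, rfl⟩
    have : A a = _ := (A1 a).trans (if_pos rfl)
    refine ⟨X, h1, _, ⟨⟨a, this⟩, _, he 0, rfl⟩, fun c => h2 ?_⟩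
    have : ∀ i, span F (range (e i)) ≤ supported F F (range (2 * · + i)) := fun i =>
      span_le.2 (range_subset_iff.2 fun n => single_mem_supported F _ ⟨n, rfl⟩)
    rw [c, ((disjoint_supported_supported (disjoint_left.2 ?_)).mono (this 0) (this 1)).eq_bot]
    · infer_instance
    · rintro _ ⟨m, rfl⟩ ⟨n, h⟩
      simp only at h; omega

end Pool.Agent.H.MP_1dfcde_lc
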